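import Pool.Agent.R117.BentRank

/-!
# The 2-rank of the design `D_{g,h}` can be smaller than that of the translation design of `h`

Counterexample for `m = 8`: Maiorana-McFarland bent functions `g(X, Y) = X ⬝ Y + g₁(Y)` and
`h(X, Y) = X ⬝ π(Y) + h₁(Y)` on `𝔽₂⁴ × 𝔽₂⁴`, where `π` and `id + π` are permutations with
`(id + π)⁻¹ = id + π⁻¹`. The hypotheses hold, but the 2-ranks are at most 29 and at least 30.
-/

set_option autoImplicit false

namespace Pool.Agent.Results.MP_52c3fe_co.RankCounterexample

open Pool.Agent.R117.Bent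

theorem result :
    ∃ g h : (Fin 8 → ZMod 2) → ZMod 2, IsBent g ∧ IsBent h ∧ IsBent (g + h) ∧
      dual (g + h) = dual g + dual h ∧
      (designMatrix g h).rank ≤ 29 ∧ 30 ≤ (translationMatrix h).rank ∧
      (designMatrix g h).rank ≠ (translationMatrix h).rank := by
  obtain ⟨g, h, h1, h2, h3, h4, h5, h6⟩ := main
  exact ⟨g, h, h1, h2, h3, h4, h5, h6, by omega⟩

end Pool.Agent.Results.MP_52c3fe_co.RankCounterexample
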